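import Pool.Agent.W23.PP.Defs
import Pool.Agent.W45.KS.TTCK

/-!
PP project, task TTCP: one coprime pair of moduli and one class.
-/

set_option autoImplicit false

namespace Pool.Agent.W639.PP

open Finset
open Pool.Agent.H442R2
open Pool.Agent.H442R2.KF
open Pool.Agent.H442R2.BX.TaskEX (II II_one II_abs summable_bd)
open Pool.Agent.W23.SG
open Pool.Agent.W23.KT
open Pool.Agent.W23.PP
open Pool.Agent.W45.KS (TT hasSum_TT TT_eval)

theorem nr_one (φ : ℤ → ℤ) : nr φ 1 = 1 := by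
  unfold nr
  have h : (range 1).filter (fun a : ℕ => ((1 : ℕ) : ℤ) ∣ φ a) = {0} := by
    ext a
    simp
  classical
  rw [Finset.card_eq_one]
  refine ⟨0, ?_⟩
  ext a
  simp

theorem roots (hRTP : St_RTP) (φ : ℤ → ℤ) (hφ : Per φ) (e : ℕ) (he : 1 ≤ e) :
    ∃ Ω : Finset ℕ, Ω.card = nr φ e ∧ (∀ s ∈ Ω, s < e) ∧
      ∀ n : ℤ, (e : ℤ) ∣ φ n ↔ ∃ s ∈ Ω, (e : ℤ) ∣ n - s := by
  obtain ⟨Ω, h1, h2, h3⟩ := hRTP.1 φ φ φ hφ hφ hφ e 1 1 he le_rfl le_rfl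
    (Nat.coprime_one_right e) (Nat.coprime_one_right e) (Nat.coprime_one_right 1)
  rw [nr_one, mul_one, mul_one] at h1
  simp only [mul_one] at h2 h3
  refine ⟨Ω, h1, h2, fun n => ?_⟩
  rw [← h3 n]
  simp

theorem dP_eq (φ : ℤ → ℤ) (d : ℕ) (n : ℤ) : dP φ d n = II d (φ n) - nr φ d / d := by
  unfold dP II rh
  congr 2

theorem TTCP (hPA : St_PA) (hRTP : St_RTP) : St_TTCP := by
  obtain ⟨N₁, hPA'⟩ := hPA (1 / 200) (by norm_num)
  refine ⟨max N₁ 1, ?_⟩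
  intro N hN Q d d' hQ hd hd' hQd hQd' hdd' hle φ ψ hφ hψ b
  have hNN : N₁ ≤ N := (le_max_left _ _).trans hN
  have hN1 : 1 ≤ N := (le_max_right _ _).trans hN
  have hN0 : (0 : ℝ) < N := by exact_mod_cast hN1
  have heval : ∀ e e' : ℕ, 1 ≤ e → 1 ≤ e' → e ≤ d → e' ≤ d' →
      Nat.Coprime Q e → Nat.Coprime Q e' → Nat.Coprime e e' →
      |TT N (fun n => n - b) φ ψ Q e e' - nr φ e * nr ψ e' * (N / (Q * e * e'))| ≤
        nr φ e * nr ψ e' * (1 / (N : ℝ) ^ 5) := by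
    intro e e' he1 he1' heX heX' k1 k2 k3
    obtain ⟨Ω, hΩ1, hΩ2, hΩ3⟩ := roots hRTP φ hφ e he1
    obtain ⟨Ω', hΩ1', hΩ2', hΩ3'⟩ := roots hRTP ψ hψ e' he1'
    rw [← hΩ1, ← hΩ1']
    refine TT_eval N hN1 b φ ψ Q e e' k1 k2 k3 Ω Ω' hΩ2 hΩ2' hΩ3 hΩ3' _ _ ?_
    intro s
    have hm : ((Q * e * e' : ℕ) : ℝ) ≤ (N : ℝ) ^ (1 - 1 / 200 : ℝ) := by
      have h1 : Q * e * e' ≤ Q * d * d' := Nat.mul_le_mul (Nat.mul_le_mul le_rfl heX) heX'
      have h2 : ((Q * e * e' : ℕ) : ℝ) ≤ ((Q * d * d' : ℕ) : ℝ) := Nat.cast_le.2 h1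
      refine (h2.trans hle).trans (le_of_eq ?_)
      norm_num
    have h1 := hPA' N hNN (Q * e * e') s (by
      have : 0 < Q * e * e' := Nat.mul_pos (Nat.mul_pos hQ he1) he1'
      omega) hm
    push_cast at h1 ⊢
    exact h1
  have h11 := heval d d' hd hd' le_rfl le_rfl hQd hQd' hdd'
  have h10 := heval d 1 hd le_rfl le_rfl hd' hQd (Nat.coprime_one_right Q)
    (Nat.coprime_one_right d)
  have h01 := heval 1 d' le_rfl hd' hd le_rfl (Nat.coprime_one_right Q) hQd'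
    (Nat.coprime_one_left d')
  have h00 := heval 1 1 le_rfl le_rfl hd hd' (Nat.coprime_one_right Q) (Nat.coprime_one_right Q)
    (Nat.coprime_one_right 1)
  rw [nr_one] at h10 h01 h00
  rw [nr_one] at h00
  -- expansion
  have hexp : ∑' n : ℤ, (if (Q : ℤ) ∣ n - b then Wt N n else 0) *
      (dP φ d n * dP ψ d' n) =
      TT N (fun n => n - b) φ ψ Q d d' -
      TT N (fun n => n - b) φ ψ Q d 1 * (nr ψ d' / d') -
      TT N (fun n => n - b) φ ψ Q 1 d' * (nr φ d / d) +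
      TT N (fun n => n - b) φ ψ Q 1 1 * (nr φ d / d * (nr ψ d' / d')) := by
    have hT := (((hasSum_TT N hN1 (fun n => n - b) φ ψ Q d d').sub
      ((hasSum_TT N hN1 (fun n => n - b) φ ψ Q d 1).mul_right ((nr ψ d' : ℝ) / d'))).sub
      ((hasSum_TT N hN1 (fun n => n - b) φ ψ Q 1 d').mul_right ((nr φ d : ℝ) / d))).add
      ((hasSum_TT N hN1 (fun n => n - b) φ ψ Q 1 1).mul_right
        ((nr φ d : ℝ) / d * ((nr ψ d' : ℝ) / d')))
    rw [← hT.tsum_eq]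
    refine tsum_congr fun n => ?_
    rw [dP_eq, dP_eq, II_one, II_one]
    have e : (if (Q : ℤ) ∣ n - b then Wt N n else 0) = Wt N n * II Q (n - b) := by
      unfold II
      split_ifs <;> simp
    rw [e]
    ring
  rw [hexp]
  have w0 : (0 : ℝ) ≤ nr φ d := Nat.cast_nonneg _
  have w0' : (0 : ℝ) ≤ nr ψ d' := Nat.cast_nonneg _
  have hdr : (1 : ℝ) ≤ d := by exact_mod_cast hd
  have hdr' : (1 : ℝ) ≤ d' := by exact_mod_cast hd'
  have hd0 : (0 : ℝ) < d := by linarith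
  have hd0' : (0 : ℝ) < d' := by linarith
  have hQ0 : (0 : ℝ) < Q := by exact_mod_cast hQ
  have v0 : 0 ≤ (nr φ d : ℝ) / d := div_nonneg w0 hd0.le
  have v0' : 0 ≤ (nr ψ d' : ℝ) / d' := div_nonneg w0' hd0'.le
  have v1 : (nr φ d : ℝ) / d ≤ nr φ d := div_le_self w0 hdr
  have v1' : (nr ψ d' : ℝ) / d' ≤ nr ψ d' := div_le_self w0' hdr'
  have hN5 : (0 : ℝ) < 1 / (N : ℝ) ^ 5 := by positivity
  generalize TT N (fun n => n - b) φ ψ Q d d' = T11 at h11 ⊢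
  generalize TT N (fun n => n - b) φ ψ Q d 1 = T10 at h10 ⊢
  generalize TT N (fun n => n - b) φ ψ Q 1 d' = T01 at h01 ⊢
  generalize TT N (fun n => n - b) φ ψ Q 1 1 = T00 at h00 ⊢
  generalize (nr φ d : ℝ) = w at *
  generalize (nr ψ d' : ℝ) = w' at *
  simp only [Nat.cast_one, one_mul, mul_one] at h10 h01 h00
  have f1 : |(T10 - w * (N / (Q * d))) * (w' / d')| ≤ w * w' * (1 / (N : ℝ) ^ 5) := by
    rw [abs_mul, abs_of_nonneg v0']
    calc |T10 - w * (N / (Q * d))| * (w' / d') ≤ (w * (1 / (N : ℝ) ^ 5)) * w' :=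
          mul_le_mul h10 v1' v0' (mul_nonneg w0 hN5.le)
      _ = _ := by ring
  have f2 : |(T01 - w' * (N / (Q * d'))) * (w / d)| ≤ w * w' * (1 / (N : ℝ) ^ 5) := by
    rw [abs_mul, abs_of_nonneg v0]
    calc |T01 - w' * (N / (Q * d'))| * (w / d) ≤ (w' * (1 / (N : ℝ) ^ 5)) * w :=
          mul_le_mul h01 v1 v0 (mul_nonneg w0' hN5.le)
      _ = _ := by ring
  have f3 : |(T00 - N / Q) * (w / d * (w' / d'))| ≤ w * w' * (1 / (N : ℝ) ^ 5) := by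
    rw [abs_mul, abs_of_nonneg (mul_nonneg v0 v0')]
    calc |T00 - N / Q| * (w / d * (w' / d')) ≤ (1 / (N : ℝ) ^ 5) * (w * w') :=
          mul_le_mul h00 (mul_le_mul v1 v1' v0' w0) (mul_nonneg v0 v0') hN5.le
      _ = _ := by ring
  have hid : T11 - T10 * (w' / d') - T01 * (w / d) + T00 * (w / d * (w' / d')) =
      (T11 - w * w' * (N / (Q * d * d'))) - (T10 - w * (N / (Q * d))) * (w' / d') -
      (T01 - w' * (N / (Q * d'))) * (w / d) + (T00 - N / Q) * (w / d * (w' / d')) := by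
    field_simp
    ring
  have h4 : 4 * (w * w') / (N : ℝ) ^ 5 = w * w' * (1 / (N : ℝ) ^ 5) + w * w' * (1 / (N : ℝ) ^ 5) +
      w * w' * (1 / (N : ℝ) ^ 5) + w * w' * (1 / (N : ℝ) ^ 5) := by ring
  rw [hid, h4]
  have g0 := abs_le.1 h11
  have g1 := abs_le.1 f1
  have g2 := abs_le.1 f2
  have g3 := abs_le.1 f3
  rw [abs_le]
  constructor <;> linarith [g0.1, g0.2, g1.1, g1.2, g2.1, g2.2, g3.1, g3.2]

end Pool.Agent.W639.PP
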